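import Pool.Agent.H752.SV.Stubs
import Pool.Agent.H622R2.CoNP

/-! # Arithmetic in polynomial time (task V6) -/

set_option autoImplicit false

namespace Pool.Agent.H752.SV

open Pool.Agent.NPC Pool.Agent.H620R2.Gauge

namespace P1

variable {α : Type} [TEnc α]

theorem upoly_size {n : α → ℕ} (hn : NPC.Poly n) : UPoly (fun a => (n a).size) :=
  (UPoly.length (NPC.Poly.natBits hn)).congr fun a => by
    show List.replicate (n a).bits.length () = List.replicate (n a).size ()
    rw [Nat.size_eq_bits_len]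

theorem poly_pow (q : ℕ) {n : α → ℕ} (hn : UPoly n) : NPC.Poly (fun a => q ^ n a) := by
  obtain ⟨r, hr⟩ := NPC.Poly.sz_le (f := fun a => List.replicate (n a) ()) hn
  have hit : ∀ k : ℕ, (fun s : ℕ => q * s)^[k] 1 = q ^ k := by
    intro k
    induction k with
    | zero => rfl
    | succ k ih => rw [Function.iterate_succ_apply', ih, pow_succ, mul_comm]
  have h := NPC.Poly.iterLen (l := fun a => List.replicate (n a) ()) (s := fun _ : α => (1 : ℕ))
    (F := fun _ s => q * s) hn (NPC.Poly.const 1)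
    (NPC.Poly.mul (NPC.Poly.const q) (NPC.Poly.snd NPC.Poly.id))
    (Polynomial.C 4 * (Polynomial.C q * r + Polynomial.C 1) + Polynomial.C 1) (by
      intro a k hk
      rw [hit]
      have h1 := hr a
      have h2 := length_lt_sz (List.replicate (n a) ())
      have h3 : (q ^ k).size ≤ q * k + 1 := by
        rw [Nat.size_le]
        calc q ^ k ≤ (2 ^ q) ^ k := Nat.pow_le_pow_left (Nat.lt_two_pow_self).le k
          _ = 2 ^ (q * k) := by rw [pow_mul]
          _ < 2 ^ (q * k + 1) := Nat.pow_lt_pow_right (by norm_num) (Nat.lt_succ_self _)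
      have h4 := sz_nat_le (q ^ k)
      have h5 : k ≤ r.eval (sz a) := by omega
      have h6 : q * k ≤ q * r.eval (sz a) := Nat.mul_le_mul_left q h5
      simp only [Polynomial.eval_add, Polynomial.eval_mul, Polynomial.eval_C]
      omega)
  refine h.congr fun a => ?_
  rw [List.length_replicate, hit]

theorem poly_eval (p : Polynomial ℕ) {m : α → ℕ} (hm : NPC.Poly m) :
    NPC.Poly (fun a => p.eval (m a)) := by
  induction p using Polynomial.induction_on' with
  | add p q hp hq => simpa only [Polynomial.eval_add] using NPC.Poly.add hp hq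
  | monomial k c =>
    simp only [Polynomial.eval_monomial]
    refine NPC.Poly.mul (NPC.Poly.const c) ?_
    induction k with
    | zero => simpa using NPC.Poly.const (α := α) (1 : ℕ)
    | succ k ih => simpa only [pow_succ] using NPC.Poly.mul ih hm

theorem upoly_min {m n : α → ℕ} (hm : NPC.Poly m) (hn : UPoly n) :
    UPoly (fun a => min (m a) (n a)) :=
  UPoly.of_le (NPC.Poly.min hm hn.toPoly) hn fun _ => min_le_right _ _

theorem dg_eq (q n i : ℕ) (hq : 2 ≤ q) : dg q n i = n / q ^ (min i n.size) % q := by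
  unfold dg
  rcases le_total i n.size with h | h
  · rw [min_eq_left h]
  · rw [min_eq_right h]
    have h1 : n < q ^ n.size := lt_of_lt_of_le (Nat.lt_size_self n) (Nat.pow_le_pow_left hq _)
    have h2 : n < q ^ i := lt_of_lt_of_le h1 (Nat.pow_le_pow_right (by omega) h)
    rw [Nat.div_eq_of_lt h1, Nat.div_eq_of_lt h2]

theorem poly_dg (q : ℕ) (hq : 2 ≤ q) {n i : α → ℕ} (hn : NPC.Poly n) (hi : NPC.Poly i) :
    NPC.Poly (fun a => dg q (n a) (i a)) := by
  have h := NPC.Poly.mod (NPC.Poly.div hn (poly_pow q (upoly_min hi (upoly_size hn))))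
    (NPC.Poly.const q)
  exact h.congr fun a => (dg_eq q (n a) (i a) hq).symm

theorem poly_lamS (q : ℕ) (p : Polynomial ℕ) (r : ℕ) {x : α → List Bool} {i : α → ℕ}
    (hx : NPC.Poly x) (hi : NPC.Poly i) : NPC.Poly (fun a => lamS q p r (x a) (i a)) := by
  have hm : UPoly (fun a => min (i a) (x a).length.size) :=
    upoly_min hi (upoly_size (NPC.Poly.length hx))
  have h1 : UPoly (fun a => min (i a) (x a).length.size + 1) := UPoly.add hm (UPoly.const 1)
  have h2 := poly_eval p (poly_pow q h1)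
  unfold lamS lam
  exact NPC.Poly.add (NPC.Poly.mul (NPC.Poly.const 2) (NPC.Poly.add (NPC.Poly.add (NPC.Poly.add
    (NPC.Poly.mul (NPC.Poly.const q) h1.toPoly) h2) (NPC.Poly.const 1)) hm.toPoly))
    (NPC.Poly.const r)

theorem poly_strOf {k : α → ℕ} (hk : NPC.Poly k) : NPC.Poly (fun a => strOf (k a)) := by
  have h := NPC.Poly.reverse (NPC.Poly.tail (NPC.Poly.reverse (NPC.Poly.natBits hk)))
  refine h.congr fun a => ?_
  rw [List.tail_reverse, List.reverse_reverse]
  rfl

theorem poly_replicate {n : α → ℕ} (hn : UPoly n) (b : Bool) :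
    NPC.Poly (fun a => List.replicate (n a) b) := by
  have h2 : NPC.Poly (fun a => (List.replicate (n a) ()).map (fun _ => b)) :=
    NPC.Poly.map (F := fun _ _ => b) hn (NPC.Poly.const b)
  exact h2.congr fun a => by simp

theorem poly_qi {n t : α → ℕ} (hn : NPC.Poly n) (ht : NPC.Poly t) :
    NPC.Poly (fun a => qi (n a) (t a)) :=
  NPC.Poly.mod ht (NPC.Poly.succ hn)

theorem poly_qm {n t : α → ℕ} (hn : NPC.Poly n) (ht : NPC.Poly t) :
    NPC.Poly (fun a => qm (n a) (t a)) :=
  NPC.Poly.mod (NPC.Poly.div ht (NPC.Poly.succ hn)) (NPC.Poly.succ hn)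

theorem poly_qk {n t : α → ℕ} (hn : NPC.Poly n) (ht : NPC.Poly t) :
    NPC.Poly (fun a => qk (n a) (t a)) :=
  NPC.Poly.div (NPC.Poly.div ht (NPC.Poly.succ hn)) (NPC.Poly.succ hn)

theorem qi_le (n t : ℕ) : qi n t ≤ n := Nat.lt_succ_iff.1 (Nat.mod_lt _ (Nat.succ_pos n))

theorem qm_le (n t : ℕ) : qm n t ≤ n := Nat.lt_succ_iff.1 (Nat.mod_lt _ (Nat.succ_pos n))

end P1

open P1 in
/-- V6 -/
theorem t_poly1 : St_poly1 := by
  intro q p r hq
  refine ⟨poly_dg q hq (NPC.Poly.fst NPC.Poly.id) (NPC.Poly.snd NPC.Poly.id),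
    poly_lamS q p r (NPC.Poly.fst NPC.Poly.id) (NPC.Poly.snd NPC.Poly.id), ?_, ?_⟩
  · have hx : NPC.Poly (fun z : (ℕ × List Bool) × List Bool => z.1.2) :=
      NPC.Poly.snd (NPC.Poly.fst NPC.Poly.id)
    have ht : NPC.Poly (fun z : (ℕ × List Bool) × List Bool => z.1.1) :=
      NPC.Poly.fst (NPC.Poly.fst NPC.Poly.id)
    have hn : UPoly (fun z : (ℕ × List Bool) × List Bool => z.1.2.length) := UPoly.length hx
    exact Pool.Agent.H622R2.poly_pairBits (poly_strOf (poly_qk hn.toPoly ht))
      (poly_replicate (UPoly.of_le (poly_qm hn.toPoly ht) hn fun z => qm_le _ _) true)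
  · have hx : NPC.Poly (fun z : List Bool × ℕ => z.1) := NPC.Poly.fst NPC.Poly.id
    have ht : NPC.Poly (fun z : List Bool × ℕ => z.2) := NPC.Poly.snd NPC.Poly.id
    have hn : UPoly (fun z : List Bool × ℕ => z.1.length) := UPoly.length hx
    have hqi : UPoly (fun z : List Bool × ℕ => qi z.1.length z.2) :=
      UPoly.of_le (poly_qi hn.toPoly ht) hn fun z => qi_le _ _
    have hqm := poly_qm hn.toPoly ht
    have hl := NPC.Poly.length (poly_strOf (poly_qk hn.toPoly ht))
    unfold valid
    exact NPC.Poly.and (NPC.Poly.and (NPC.Poly.decide_le (poly_pow q hqi) hqm)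
      (NPC.Poly.decide_lt hqm (poly_pow q (UPoly.add hqi (UPoly.const 1)))))
      (NPC.Poly.decide_le hl (poly_eval p hqm))

end Pool.Agent.H752.SV
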